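import Mathlib

/-!
# Matrix-generated shift operators and products of weighted shifts (MP_43e0cc_an)

The shift operator generated by the constant sequence `S_n = [[1,1],[0,1]]` on `ℓ_p(𝕂²)` is not
linearly conjugate to any finite product of weighted backward shifts on `ℓ_p(𝕂)`.
-/

open Filter Set
open scoped Topology ENNReal

namespace Pool.Agent.Results.MP_43e0cc_an.JordanShift

variable {𝕜 : Type} [RCLike 𝕜]

/-- `B` is the weighted backward shift `(B x)_n = ω_{n+1} x_{n+1}` (auxiliary form). -/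
structure IsWS {p : ℝ≥0∞} [Fact (1 ≤ p)] (ω : ℤ → 𝕜)
    (B : lp (fun _ : ℤ => 𝕜) p →L[𝕜] lp (fun _ : ℤ => 𝕜) p) : Prop where
  bdd : ∃ C : ℝ, ∀ n, ‖ω n‖ ≤ C
  away : ∃ c : ℝ, 0 < c ∧ ∀ n, c ≤ ‖ω n‖
  apply : ∀ x n, B x n = ω (n + 1) * x (n + 1)

section ops

variable {E : Type} [NormedAddCommGroup E] [NormedSpace 𝕜 E] {p : ℝ≥0∞} [Fact (1 ≤ p)]

lemma toReal_pos' (hp : p ≠ ⊤) : 0 < p.toReal :=
  ENNReal.toReal_pos (lt_of_lt_of_le zero_lt_one (Fact.out : 1 ≤ p)).ne' hp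

lemma summable_op (hp : p ≠ ⊤) (L : E →L[𝕜] E) (s : ℤ) (x : lp (fun _ : ℤ => E) p) :
    Summable fun n : ℤ => ‖L (x (n + s))‖ ^ p.toReal := by
  have hp' := toReal_pos' hp
  have h1 : Summable fun n : ℤ => ‖x n‖ ^ p.toReal := (memℓp_gen_iff hp').1 (lp.memℓp x)
  have h2 : Summable fun n : ℤ => ‖x (n + s)‖ ^ p.toReal :=
    (Equiv.addRight s).summable_iff.2 h1
  refine Summable.of_nonneg_of_le (fun n => by positivity) (fun n => ?_)
    (h2.mul_left (‖L‖ ^ p.toReal))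
  rw [← Real.mul_rpow (norm_nonneg _) (norm_nonneg _)]
  exact Real.rpow_le_rpow (norm_nonneg _) (L.le_opNorm _) hp'.le

/-- The operator `(x_n) ↦ (L x_{n+s})`. -/
noncomputable def op (hp : p ≠ ⊤) (L : E →L[𝕜] E) (s : ℤ) :
    lp (fun _ : ℤ => E) p →L[𝕜] lp (fun _ : ℤ => E) p :=
  LinearMap.mkContinuous
    { toFun := fun x => ⟨fun n => L (x (n + s)), memℓp_gen (summable_op hp L s x)⟩
      map_add' := by
        intro x y
        ext n
        exact map_add L (x (n + s)) (y (n + s))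
      map_smul' := by
        intro c x
        ext n
        exact map_smul L c (x (n + s)) }
    ‖L‖ (by
      intro x
      have hp' := toReal_pos' hp
      refine lp.norm_le_of_tsum_le hp' (by positivity) ?_
      rw [Real.mul_rpow (norm_nonneg _) (norm_nonneg _), lp.norm_rpow_eq_tsum hp' x]
      have h1 : Summable fun n : ℤ => ‖x n‖ ^ p.toReal := (memℓp_gen_iff hp').1 (lp.memℓp x)
      have h2 : Summable fun n : ℤ => ‖x (n + s)‖ ^ p.toReal :=
        (Equiv.addRight s).summable_iff.2 h1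
      have h3 : ∑' n : ℤ, ‖x n‖ ^ p.toReal = ∑' n : ℤ, ‖x (n + s)‖ ^ p.toReal :=
        ((Equiv.addRight s).tsum_eq (fun n : ℤ => ‖x n‖ ^ p.toReal)).symm
      rw [h3, ← tsum_mul_left]
      refine (summable_op hp L s x).tsum_le_tsum (fun n => ?_) (h2.mul_left _)
      rw [← Real.mul_rpow (norm_nonneg _) (norm_nonneg _)]
      exact Real.rpow_le_rpow (norm_nonneg _) (L.le_opNorm _) hp'.le)

lemma op_apply (hp : p ≠ ⊤) (L : E →L[𝕜] E) (s : ℤ) (x : lp (fun _ : ℤ => E) p) (n : ℤ) :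
    op hp L s x n = L (x (n + s)) := rfl

lemma norm_op_le (hp : p ≠ ⊤) (L : E →L[𝕜] E) (s : ℤ) (x : lp (fun _ : ℤ => E) p) :
    ‖op hp L s x‖ ≤ ‖L‖ * ‖x‖ := by
  have h := (op hp L s).le_opNorm x
  refine h.trans (mul_le_mul_of_nonneg_right ?_ (norm_nonneg _))
  exact LinearMap.mkContinuous_norm_le _ (norm_nonneg _) _

end ops

section wop

variable {p : ℝ≥0∞} [Fact (1 ≤ p)]

lemma summable_wop (hp : p ≠ ⊤) (ω : ℤ → 𝕜) (C : ℝ) (hC : ∀ n, ‖ω n‖ ≤ C)
    (x : lp (fun _ : ℤ => 𝕜) p) :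
    Summable fun n : ℤ => ‖ω (n + 1) * x (n + 1)‖ ^ p.toReal := by
  have hp' := toReal_pos' hp
  have h1 : Summable fun n : ℤ => ‖x n‖ ^ p.toReal := (memℓp_gen_iff hp').1 (lp.memℓp x)
  have h2 : Summable fun n : ℤ => ‖x (n + 1)‖ ^ p.toReal :=
    (Equiv.addRight (1 : ℤ)).summable_iff.2 h1
  have hC0 : 0 ≤ C := (norm_nonneg _).trans (hC 0)
  refine Summable.of_nonneg_of_le (fun n => by positivity) (fun n => ?_)
    (h2.mul_left (C ^ p.toReal))
  rw [← Real.mul_rpow hC0 (norm_nonneg _), norm_mul]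
  exact Real.rpow_le_rpow (by positivity)
    (mul_le_mul_of_nonneg_right (hC _) (norm_nonneg _)) hp'.le

/-- The weighted backward shift as a bounded operator. -/
noncomputable def wop (hp : p ≠ ⊤) (ω : ℤ → 𝕜) (C : ℝ) (hC : ∀ n, ‖ω n‖ ≤ C) :
    lp (fun _ : ℤ => 𝕜) p →L[𝕜] lp (fun _ : ℤ => 𝕜) p :=
  LinearMap.mkContinuous
    { toFun := fun x => ⟨fun n => ω (n + 1) * x (n + 1), memℓp_gen (summable_wop hp ω C hC x)⟩
      map_add' := by
        intro x y
        ext n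
        exact mul_add (ω (n + 1)) (x (n + 1)) (y (n + 1))
      map_smul' := by
        intro c x
        ext n
        show ω (n + 1) * (c * x (n + 1)) = c * (ω (n + 1) * x (n + 1))
        ring }
    C (by
      intro x
      have hp' := toReal_pos' hp
      have hC0 : 0 ≤ C := (norm_nonneg _).trans (hC 0)
      refine lp.norm_le_of_tsum_le hp' (by positivity) ?_
      rw [Real.mul_rpow hC0 (norm_nonneg _), lp.norm_rpow_eq_tsum hp' x]
      have h1 : Summable fun n : ℤ => ‖x n‖ ^ p.toReal := (memℓp_gen_iff hp').1 (lp.memℓp x)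
      have h2 : Summable fun n : ℤ => ‖x (n + 1)‖ ^ p.toReal :=
        (Equiv.addRight (1 : ℤ)).summable_iff.2 h1
      have h3 : ∑' n : ℤ, ‖x n‖ ^ p.toReal = ∑' n : ℤ, ‖x (n + 1)‖ ^ p.toReal :=
        ((Equiv.addRight (1 : ℤ)).tsum_eq (fun n : ℤ => ‖x n‖ ^ p.toReal)).symm
      rw [h3, ← tsum_mul_left]
      refine (summable_wop hp ω C hC x).tsum_le_tsum (fun n => ?_) (h2.mul_left _)
      rw [← Real.mul_rpow hC0 (norm_nonneg _)]
      have h4 : ‖ω (n + 1) * x (n + 1)‖ ≤ C * ‖x (n + 1)‖ := by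
        rw [norm_mul]
        exact mul_le_mul_of_nonneg_right (hC _) (norm_nonneg _)
      exact Real.rpow_le_rpow (norm_nonneg _) h4 hp'.le)

lemma wop_apply (hp : p ≠ ⊤) (ω : ℤ → 𝕜) (C : ℝ) (hC : ∀ n, ‖ω n‖ ≤ C)
    (x : lp (fun _ : ℤ => 𝕜) p) (n : ℤ) : wop hp ω C hC x n = ω (n + 1) * x (n + 1) := rfl

end wop

/-- The vectors with bounded forward orbit. -/
def bounded {F : Type} [NormedAddCommGroup F] [NormedSpace 𝕜 F] (T : F →L[𝕜] F) : Set F :=
  {x | ∃ C : ℝ, ∀ n : ℕ, ‖(T ^ n) x‖ ≤ C}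

section weighted

variable {p : ℝ≥0∞} [Fact (1 ≤ p)] {ω : ℤ → 𝕜}
  {B : lp (fun _ : ℤ => 𝕜) p →L[𝕜] lp (fun _ : ℤ => 𝕜) p}

lemma ω_ne (h : IsWS ω B) (n : ℤ) : ω n ≠ 0 := by
  obtain ⟨c, hc, h2⟩ := h.away
  intro h0
  have := h2 n
  rw [h0, norm_zero] at this
  linarith

lemma B_single (h : IsWS ω B) (j : ℤ) (a : 𝕜) :
    B (lp.single p j a) = lp.single p (j - 1) (ω j * a) := by
  ext n
  rw [h.apply]
  by_cases hn : n = j - 1
  · subst hn
    rw [show j - 1 + 1 = j by ring, lp.single_apply_self, lp.single_apply_self]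
  · rw [lp.single_apply_ne _ _ _ (by intro h'; apply hn; linarith), lp.single_apply_ne _ _ _ hn,
      mul_zero]

lemma pow_single (h : IsWS ω B) (n : ℕ) : ∀ j : ℤ, ∃ c : 𝕜, c ≠ 0 ∧
    ∀ a : 𝕜, (B ^ n) (lp.single p j a) = lp.single p (j - n) (c * a) := by
  induction n with
  | zero => intro j; exact ⟨1, one_ne_zero, fun a => by simp⟩
  | succ n ih =>
    intro j
    obtain ⟨c, hc, h1⟩ := ih (j - 1)
    refine ⟨c * ω j, mul_ne_zero hc (ω_ne h j), fun a => ?_⟩
    rw [pow_succ, mul_apply_eq_comp, B_single h, h1]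
    rw [mul_assoc]
    congr 1
    push_cast
    ring

lemma pow_apply' (h : IsWS ω B) (n : ℕ) : ∀ j : ℤ, ∃ c : 𝕜, c ≠ 0 ∧
    (∀ a : 𝕜, (B ^ n) (lp.single p j a) = lp.single p (j - n) (c * a)) ∧
    ∀ x : lp (fun _ : ℤ => 𝕜) p, (B ^ n) x (j - n) = c * x j := by
  induction n with
  | zero => intro j; exact ⟨1, one_ne_zero, fun a => by simp, fun x => by simp⟩
  | succ n ih =>
    intro j
    obtain ⟨c, hc, h1, h2⟩ := ih (j - 1)
    refine ⟨c * ω j, mul_ne_zero hc (ω_ne h j), fun a => ?_, fun x => ?_⟩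
    · rw [pow_succ, mul_apply_eq_comp, B_single h, h1]
      rw [mul_assoc]
      congr 1
      push_cast
      ring
    · rw [pow_succ, mul_apply_eq_comp]
      have := h2 (B x)
      rw [h.apply, show j - 1 + 1 = j by ring] at this
      rw [show j - ((n + 1 : ℕ) : ℤ) = j - 1 - n by push_cast; ring, this, mul_assoc]

lemma bounded_all (h : IsWS ω B) (hp : p ≠ ⊤) (hcl : IsClosed (bounded B))
    (x : lp (fun _ : ℤ => 𝕜) p) (hx : x ∈ bounded B) (hx0 : x ≠ 0) :
    bounded B = univ := by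
  have hpos : 0 < p := lt_of_lt_of_le zero_lt_one (Fact.out : 1 ≤ p)
  -- a nonzero coordinate
  obtain ⟨j, hj⟩ : ∃ j, x j ≠ 0 := by
    by_contra hcon
    push Not at hcon
    apply hx0
    ext n
    rw [hcon n]
    rfl
  have smul_mem : ∀ (c : 𝕜) (y : lp (fun _ : ℤ => 𝕜) p), y ∈ bounded B → c • y ∈ bounded B := by
    rintro c y ⟨C, hC⟩
    refine ⟨‖c‖ * C, fun n => ?_⟩
    rw [map_smul, norm_smul]
    exact mul_le_mul_of_nonneg_left (hC n) (norm_nonneg _)
  have add_mem : ∀ (y z : lp (fun _ : ℤ => 𝕜) p), y ∈ bounded B → z ∈ bounded B →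
      y + z ∈ bounded B := by
    rintro y z ⟨C, hC⟩ ⟨D, hD⟩
    refine ⟨C + D, fun n => ?_⟩
    rw [map_add]
    exact (norm_add_le _ _).trans (add_le_add (hC n) (hD n))
  have hej : lp.single p j (1 : 𝕜) ∈ bounded B := by
    obtain ⟨C, hC⟩ := hx
    refine ⟨C / ‖x j‖, fun n => ?_⟩
    obtain ⟨c, hc, h1, h2⟩ := pow_apply' h n j
    rw [h1, lp.norm_single hpos, mul_one, le_div_iff₀ (norm_pos_iff.2 hj), ← norm_mul, ← h2 x]
    exact (lp.norm_apply_le_norm hpos.ne' _ _).trans (hC n)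
  -- all the basis vectors
  have hsingle : ∀ i : ℤ, ∀ a : 𝕜, lp.single p i a ∈ bounded B := by
    intro i a
    have h1 : lp.single p i (1 : 𝕜) ∈ bounded B := by
      rcases le_total i j with hij | hij
      · obtain ⟨m, hm⟩ := Int.eq_ofNat_of_zero_le (sub_nonneg.2 hij)
        obtain ⟨c, hc, h1, -⟩ := pow_apply' h m j
        have h2 : (lp.single p i (1 : 𝕜) : lp (fun _ : ℤ => 𝕜) p) =
            (B ^ m) (lp.single p j (c⁻¹ : 𝕜)) := by
          rw [h1, mul_inv_cancel₀ hc]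
          congr 1
          linarith
        obtain ⟨C, hC⟩ := smul_mem c⁻¹ _ hej
        refine ⟨C, fun n => ?_⟩
        rw [h2]
        have h3 := hC (n + m)
        rw [pow_add, mul_apply_eq_comp] at h3
        have h4 : c⁻¹ • (lp.single p j (1 : 𝕜) : lp (fun _ : ℤ => 𝕜) p) =
            lp.single p j (c⁻¹ : 𝕜) := by
          rw [← lp.single_smul]
          simp
        rw [h4] at h3
        exact h3
      · obtain ⟨m, hm⟩ := Int.eq_ofNat_of_zero_le (sub_nonneg.2 hij)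
        obtain ⟨c, hc, h1, -⟩ := pow_apply' h m i
        have h2 : (B ^ m) (lp.single p i (1 : 𝕜)) = c • lp.single p j (1 : 𝕜) := by
          rw [h1, ← lp.single_smul]
          simp only [smul_eq_mul, mul_one]
          congr 1
          linarith
        obtain ⟨C, hC⟩ := smul_mem c _ hej
        refine ⟨max C (∑ k ∈ Finset.range m, ‖(B ^ k) (lp.single p i (1 : 𝕜))‖), fun n => ?_⟩
        by_cases hn : n < m
        · refine le_max_of_le_right ?_
          exact Finset.single_le_sum (f := fun k => ‖(B ^ k) (lp.single p i (1 : 𝕜))‖)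
            (fun _ _ => norm_nonneg _) (Finset.mem_range.2 hn)
        · refine le_max_of_le_left ?_
          push Not at hn
          obtain ⟨r, rfl⟩ := Nat.exists_eq_add_of_le hn
          rw [add_comm m r, pow_add, mul_apply_eq_comp, h2]
          exact hC r
    have := smul_mem a _ h1
    rw [← lp.single_smul] at this
    simpa using this
  -- density
  apply eq_univ_of_forall
  intro y
  have hs := lp.hasSum_single hp y
  refine hcl.mem_of_tendsto hs (Eventually.of_forall fun F => ?_)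
  induction F using Finset.induction_on with
  | empty =>
    rw [Finset.sum_empty]
    exact ⟨0, fun n => by simp⟩
  | insert a F ha ih =>
    rw [Finset.sum_insert ha]
    exact add_mem _ _ (hsingle _ _) ih

end weighted

/-! ### The Jordan block -/

/-- The linear map `(a, b) ↦ (a + c b, b)`. -/
noncomputable def jl (c : 𝕜) : EuclideanSpace 𝕜 (Fin 2) →ₗ[𝕜] EuclideanSpace 𝕜 (Fin 2) where
  toFun v := !₂[v 0 + c * v 1, v 1]
  map_add' := by
    intro v w
    ext i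
    fin_cases i
    · simp; ring
    · simp
  map_smul' := by
    intro a v
    ext i
    fin_cases i
    · simp; ring
    · simp

/-- The linear map `(a, b) ↦ (a + c b, b)` as a continuous linear equivalence. -/
noncomputable def je (c : 𝕜) : EuclideanSpace 𝕜 (Fin 2) ≃L[𝕜] EuclideanSpace 𝕜 (Fin 2) :=
  (LinearEquiv.ofLinearMap (jl c) (jl (-c))
    (by ext v i; fin_cases i <;> simp [jl])
    (by ext v i; fin_cases i <;> simp [jl])).toContinuousLinearEquiv

lemma je_apply_zero (c : 𝕜) (v : EuclideanSpace 𝕜 (Fin 2)) : je c v 0 = v 0 + c * v 1 := by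
  simp [je, jl]

lemma je_apply_one (c : 𝕜) (v : EuclideanSpace 𝕜 (Fin 2)) : je c v 1 = v 1 := by
  simp [je, jl]

/-- The projection `(a, b) ↦ (0, b)`. -/
noncomputable def ql : EuclideanSpace 𝕜 (Fin 2) →ₗ[𝕜] EuclideanSpace 𝕜 (Fin 2) where
  toFun v := !₂[0, v 1]
  map_add' := by
    intro v w
    ext i
    fin_cases i <;> simp
  map_smul' := by
    intro a v
    ext i
    fin_cases i <;> simp

/-- The projection `(a, b) ↦ (0, b)`. -/
noncomputable def Q : EuclideanSpace 𝕜 (Fin 2) →L[𝕜] EuclideanSpace 𝕜 (Fin 2) :=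
  LinearMap.toContinuousLinearMap ql

lemma Q_zero (v : EuclideanSpace 𝕜 (Fin 2)) : Q v 0 = 0 := by simp [Q, ql]

lemma Q_one (v : EuclideanSpace 𝕜 (Fin 2)) : Q v 1 = v 1 := by simp [Q, ql]

section main

variable {p : ℝ≥0∞} [Fact (1 ≤ p)]

/-- The shift operator of the constant sequence. -/
noncomputable def T (hp : p ≠ ⊤) : lp (fun _ : ℤ => EuclideanSpace 𝕜 (Fin 2)) p →L[𝕜]
    lp (fun _ : ℤ => EuclideanSpace 𝕜 (Fin 2)) p :=
  op hp (je (1 : 𝕜) : EuclideanSpace 𝕜 (Fin 2) →L[𝕜] EuclideanSpace 𝕜 (Fin 2)) 1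

lemma T_pow (hp : p ≠ ⊤) (n : ℕ) (x : lp (fun _ : ℤ => EuclideanSpace 𝕜 (Fin 2)) p) (j : ℤ) :
    (T hp ^ n) x j = je (n : 𝕜) (x (j + n)) := by
  induction n generalizing x with
  | zero =>
    ext i
    fin_cases i
    · simp [je_apply_zero]
    · simp [je_apply_one]
  | succ n ih =>
    rw [pow_succ, mul_apply_eq_comp, ih]
    have h1 : T hp x (j + n) = je (1 : 𝕜) (x (j + n + 1)) := rfl
    rw [h1]
    have h2 : j + ((n + 1 : ℕ) : ℤ) = j + n + 1 := by push_cast; ring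
    rw [h2]
    ext i
    fin_cases i
    · simp only [Fin.zero_eta, je_apply_zero, je_apply_one]
      push_cast
      ring
    · simp only [Fin.mk_one, je_apply_one]

lemma mem_bounded_iff (hp : p ≠ ⊤) (x : lp (fun _ : ℤ => EuclideanSpace 𝕜 (Fin 2)) p) :
    x ∈ bounded (T hp) ↔ op hp Q 0 x = 0 := by
  have hpos : p ≠ 0 := (lt_of_lt_of_le zero_lt_one (Fact.out : 1 ≤ p)).ne'
  constructor
  · rintro ⟨C, hC⟩
    ext j i
    fin_cases i
    · simp [op_apply, Q_zero]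
    · simp only [op_apply, add_zero, Fin.mk_one, Q_one]
      show x j 1 = 0
      by_contra hb
      have hbpos : 0 < ‖x j 1‖ := norm_pos_iff.2 hb
      obtain ⟨n, hn⟩ := exists_nat_gt ((C + ‖x j 0‖) / ‖x j 1‖)
      rw [div_lt_iff₀ hbpos] at hn
      have h1 : ‖(T hp ^ n) x (j - n)‖ ≤ C :=
        (lp.norm_apply_le_norm hpos _ _).trans (hC n)
      rw [T_pow, sub_add_cancel] at h1
      have h2 : ‖je (n : 𝕜) (x j) 0‖ ≤ ‖je (n : 𝕜) (x j)‖ := PiLp.norm_apply_le _ _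
      rw [je_apply_zero] at h2
      have h3 : ‖(n : 𝕜) * x j 1‖ ≤ ‖x j 0 + (n : 𝕜) * x j 1‖ + ‖x j 0‖ := by
        have : (n : 𝕜) * x j 1 = (x j 0 + (n : 𝕜) * x j 1) - x j 0 := by ring
        calc ‖(n : 𝕜) * x j 1‖ = ‖(x j 0 + (n : 𝕜) * x j 1) - x j 0‖ := by rw [← this]
          _ ≤ _ := norm_sub_le _ _
      rw [norm_mul, RCLike.norm_natCast] at h3
      linarith
  · intro h
    have hx : ∀ j, x j 1 = 0 := by
      intro j
      have h1 : op hp Q 0 x j 1 = 0 := by rw [h]; rfl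
      rwa [op_apply, add_zero, Q_one] at h1
    refine ⟨‖ContinuousLinearMap.id 𝕜 (EuclideanSpace 𝕜 (Fin 2))‖ * ‖x‖, fun n => ?_⟩
    have h2 : (T hp ^ n) x = op hp (ContinuousLinearMap.id 𝕜 (EuclideanSpace 𝕜 (Fin 2))) n x := by
      ext j i
      rw [T_pow, op_apply]
      fin_cases i
      · simp [je_apply_zero, hx]
      · simp [je_apply_one]
    rw [h2]
    exact norm_op_le _ _ _ _

lemma core (hp : p ≠ ⊤) (k : ℕ) (ω : Fin k → ℤ → 𝕜)
    (B : Fin k → (lp (fun _ : ℤ => 𝕜) p →L[𝕜] lp (fun _ : ℤ => 𝕜) p))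
    (hB : ∀ i, IsWS (ω i) (B i))
    (H : lp (fun _ : ℤ => EuclideanSpace 𝕜 (Fin 2)) p ≃L[𝕜] (Fin k → lp (fun _ : ℤ => 𝕜) p))
    (hH : ∀ x i, H (T hp x) i = B i (H x i)) : False := by
  have hpos : p ≠ 0 := (lt_of_lt_of_le zero_lt_one (Fact.out : 1 ≤ p)).ne'
  obtain ⟨K, hK0, hHn⟩ : ∃ K : ℝ, 0 ≤ K ∧ ∀ y i, ‖H y i‖ ≤ K * ‖y‖ :=
    ⟨‖H.toContinuousLinearMap‖, norm_nonneg _, fun y i =>
      (norm_le_pi_norm (H y) i).trans (H.toContinuousLinearMap.le_opNorm y)⟩
  -- iterates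
  have hpow : ∀ (n : ℕ) x i, H ((T hp ^ n) x) i = (B i ^ n) (H x i) := by
    intro n
    induction n with
    | zero => intro x i; simp
    | succ n ih =>
      intro x i
      rw [pow_succ, pow_succ, mul_apply_eq_comp, mul_apply_eq_comp, ih, hH]
  -- bounded orbits correspond
  have hbd : ∀ x, x ∈ bounded (T hp) ↔ ∀ i, H x i ∈ bounded (B i) := by
    intro x
    constructor
    · rintro ⟨C, hC⟩ i
      refine ⟨K * C, fun n => ?_⟩
      rw [← hpow]
      exact (hHn _ i).trans (mul_le_mul_of_nonneg_left (hC n) hK0)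
    · intro h
      choose C hC using h
      refine ⟨‖H.symm.toContinuousLinearMap‖ * ∑ i, |C i|, fun n => ?_⟩
      have h1 : (T hp ^ n) x = H.symm (H ((T hp ^ n) x)) := by simp
      rw [h1]
      refine (H.symm.toContinuousLinearMap.le_opNorm _).trans
        (mul_le_mul_of_nonneg_left ?_ (norm_nonneg _))
      refine (pi_norm_le_iff_of_nonneg (Finset.sum_nonneg fun _ _ => abs_nonneg _)).2 fun i => ?_
      rw [hpow]
      exact ((hC i n).trans (le_abs_self _)).trans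
        (Finset.single_le_sum (f := fun i => |C i|) (fun _ _ => abs_nonneg _) (Finset.mem_univ i))
  have hclT : IsClosed (bounded (T (𝕜 := 𝕜) hp)) := by
    have : bounded (T (𝕜 := 𝕜) hp) = {x | op hp (Q (𝕜 := 𝕜)) 0 x = 0} := by
      ext x; exact mem_bounded_iff hp x
    rw [this]
    exact isClosed_eq (op hp (Q (𝕜 := 𝕜)) 0).continuous continuous_const
  have hzero : ∀ i, (0 : lp (fun _ : ℤ => 𝕜) p) ∈ bounded (B i) := fun i => ⟨0, fun n => by simp⟩
  classical
  have hcl : ∀ i, IsClosed (bounded (B i)) := by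
    intro i
    have h1 : bounded (B i) = (fun y => H.symm (Pi.single i y)) ⁻¹' bounded (T hp) := by
      ext y
      rw [Set.mem_preimage, hbd]
      simp only [ContinuousLinearEquiv.apply_symm_apply]
      constructor
      · intro hy l
        by_cases hl : l = i
        · subst hl; rw [Pi.single_eq_same]; exact hy
        · rw [Pi.single_eq_of_ne hl]; exact hzero l
      · intro h
        have := h i
        rwa [Pi.single_eq_same] at this
    rw [h1]
    exact hclT.preimage (H.symm.continuous.comp (continuous_single i))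
  by_cases hall : ∀ i, bounded (B i) = univ
  · -- then every orbit is bounded
    have h1 : (lp.single p 0 (!₂[0, 1] : EuclideanSpace 𝕜 (Fin 2)) :
        lp (fun _ : ℤ => EuclideanSpace 𝕜 (Fin 2)) p) ∈ bounded (T hp) := by
      rw [hbd]
      intro i
      rw [hall i]
      trivial
    rw [mem_bounded_iff] at h1
    have h2 : op hp Q 0 (lp.single p 0 (!₂[0, 1] : EuclideanSpace 𝕜 (Fin 2)) :
        lp (fun _ : ℤ => EuclideanSpace 𝕜 (Fin 2)) p) 0 1 = 0 := by rw [h1]; rfl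
    rw [op_apply, add_zero, Q_one, lp.single_apply_self] at h2
    simp at h2
  · push Not at hall
    obtain ⟨i, hi⟩ := hall
    have hi0 : ∀ y ∈ bounded (B i), y = 0 := by
      intro y hy
      by_contra hy0
      exact hi (bounded_all (hB i) hp (hcl i) y hy hy0)
    set e0 : lp (fun _ : ℤ => 𝕜) p := lp.single p 0 (1 : 𝕜) with he0
    have he0ne : e0 ≠ 0 := by
      intro h
      have h1 : e0 0 = 0 := by rw [h]; rfl
      rw [he0, lp.single_apply_self] at h1
      exact one_ne_zero h1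
    apply he0ne
    apply hi0
    set x := H.symm (Pi.single i e0) with hx
    have hQ : ∀ n : ℕ, ‖op hp (Q (𝕜 := 𝕜)) (n : ℤ) x‖ ≤ ‖(Q (𝕜 := 𝕜))‖ * ‖x‖ :=
      fun n => norm_op_le hp (Q (𝕜 := 𝕜)) (n : ℤ) x
    refine ⟨K * (‖(Q (𝕜 := 𝕜))‖ * ‖x‖), fun n => ?_⟩
    -- `m = T^n x - Q T^n x` has bounded orbit
    have hm : (T hp ^ n) x - op hp (Q (𝕜 := 𝕜)) (n : ℤ) x ∈ bounded (T hp) := by
      rw [mem_bounded_iff]
      ext j l
      fin_cases l
      · simp [op_apply, Q_zero]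
      · rw [map_sub]
        have e1 : op hp (Q (𝕜 := 𝕜)) 0 ((T hp ^ n) x) j = Q (je (n : 𝕜) (x (j + n))) := by
          rw [op_apply, add_zero, T_pow]
        have e2 : op hp (Q (𝕜 := 𝕜)) 0 (op hp (Q (𝕜 := 𝕜)) (n : ℤ) x) j =
            Q (Q (x (j + n))) := by
          rw [op_apply, add_zero, op_apply]
        show (op hp (Q (𝕜 := 𝕜)) 0 ((T hp ^ n) x) j -
          op hp (Q (𝕜 := 𝕜)) 0 (op hp (Q (𝕜 := 𝕜)) (n : ℤ) x) j) 1 = 0
        rw [e1, e2, PiLp.sub_apply, Q_one, Q_one, Q_one, je_apply_one, sub_self]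
    have h1 := hi0 _ ((hbd _).1 hm i)
    rw [map_sub] at h1
    have h2 : H ((T hp ^ n) x) i = H (op hp (Q (𝕜 := 𝕜)) (n : ℤ) x) i := by
      have : H ((T hp ^ n) x) i - H (op hp (Q (𝕜 := 𝕜)) (n : ℤ) x) i = 0 := h1
      exact sub_eq_zero.1 this
    have h3 : (B i ^ n) e0 = H (op hp (Q (𝕜 := 𝕜)) (n : ℤ) x) i := by
      rw [← h2, hpow, hx, ContinuousLinearEquiv.apply_symm_apply, Pi.single_eq_same]
    rw [h3]
    exact (hHn _ i).trans (mul_le_mul_of_nonneg_left (hQ n) hK0)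

end main

/-! ### The statement -/

/-- `x ∈ ℓ_p(X)`: the bilateral sequence `x : ℤ → X` satisfies `∑ ‖x_n‖^p < ∞`. -/
def InLp {X : Type} [NormedAddCommGroup X] (p : ℝ) (x : ℤ → X) : Prop :=
  Summable fun n => ‖x n‖ ^ p

/-- The norm `(∑ ‖x_n‖^p)^{1/p}` of `ℓ_p(X)`. -/
noncomputable def lpNorm {X : Type} [NormedAddCommGroup X] (p : ℝ) (x : ℤ → X) : ℝ :=
  (∑' n, ‖x n‖ ^ p) ^ (1 / p)

/-- The shift operator generated by the maps `S_n : X → X`: `(σ x)_n = S_{n+1} x_{n+1}`. -/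
def shiftOp {X : Type} (S : ℤ → X → X) (x : ℤ → X) : ℤ → X := fun n => S (n + 1) (x (n + 1))

/-- The weights are bounded and bounded away from zero. -/
def Admissible {𝕜 : Type} [RCLike 𝕜] (ω : ℤ → 𝕜) : Prop :=
  (∃ C : ℝ, ∀ n, ‖ω n‖ ≤ C) ∧ ∃ c : ℝ, 0 < c ∧ ∀ n, c ≤ ‖ω n‖

/-- The operator `T` of `ℓ_p(X)` is linearly conjugate to the product of the weighted backward
shifts `B_i y = (ω^(i)_{n+1} y_{n+1})_n`, `i = 1, …, k`, acting coordinatewise on `ℓ_p(𝕜)^k`: there is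
a linear bijection `H` of `ℓ_p(X)` onto `ℓ_p(𝕜)^k`, bounded with bounded inverse, such that
`H (T x) = (B_1 × ⋯ × B_k) (H x)`. -/
def ConjugateToProduct {𝕜 X : Type} [RCLike 𝕜] [NormedAddCommGroup X] [NormedSpace 𝕜 X] (p : ℝ)
    (T : (ℤ → X) → (ℤ → X)) {k : ℕ} (ω : Fin k → ℤ → 𝕜) : Prop :=
  ∃ H : (ℤ → X) → (Fin k → ℤ → 𝕜),
    (∀ x, InLp p x → ∀ i, InLp p (H x i)) ∧
    (∀ x y, InLp p x → InLp p y → H (x + y) = H x + H y) ∧
    (∀ (c : 𝕜) x, InLp p x → H (c • x) = c • H x) ∧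
    (∀ y : Fin k → ℤ → 𝕜, (∀ i, InLp p (y i)) → ∃! x, InLp p x ∧ H x = y) ∧
    (∃ C, ∀ x, InLp p x →
      (∀ i, lpNorm p (H x i) ≤ C * lpNorm p x) ∧ lpNorm p x ≤ C * ∑ i, lpNorm p (H x i)) ∧
    ∀ x, InLp p x → ∀ i, H (T x) i = shiftOp (fun n a => ω i n * a) (H x i)

lemma inLp_coe {X : Type} [NormedAddCommGroup X] {p : ℝ} (hp : 1 ≤ p)
    [Fact (1 ≤ ENNReal.ofReal p)] (x : lp (fun _ : ℤ => X) (ENNReal.ofReal p)) :
    InLp p (fun n => x n) := by
  have h0 : (ENNReal.ofReal p).toReal = p := ENNReal.toReal_ofReal (by linarith)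
  have h1 : 0 < (ENNReal.ofReal p).toReal := by rw [h0]; linarith
  have h2 := (memℓp_gen_iff h1).1 (lp.memℓp x)
  rw [h0] at h2
  exact h2

lemma lpNorm_coe {X : Type} [NormedAddCommGroup X] {p : ℝ} (hp : 1 ≤ p)
    [Fact (1 ≤ ENNReal.ofReal p)] (x : lp (fun _ : ℤ => X) (ENNReal.ofReal p)) :
    lpNorm p (fun n => x n) = ‖x‖ := by
  have h0 : (ENNReal.ofReal p).toReal = p := ENNReal.toReal_ofReal (by linarith)
  have h1 : 0 < (ENNReal.ofReal p).toReal := by rw [h0]; linarith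
  have h2 := lp.norm_eq_tsum_rpow h1 x
  rw [h0] at h2
  exact h2.symm

/-- The element of the Mathlib space `lp` given by a sequence in `ℓ_p`. -/
def mk {X : Type} [NormedAddCommGroup X] {p : ℝ} (hp : 1 ≤ p) (x : ℤ → X) (hx : InLp p x) :
    lp (fun _ : ℤ => X) (ENNReal.ofReal p) :=
  ⟨x, memℓp_gen (by
    have h0 : (ENNReal.ofReal p).toReal = p := ENNReal.toReal_ofReal (by linarith)
    rw [h0]
    exact hx)⟩

/-- **Q1 has a positive answer.**  For every field `𝕜 ∈ {ℝ, ℂ}` and every `1 ≤ p < ∞`, the shift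
operator on `ℓ_p(𝕜²)` generated by the constant sequence `S_n = J`, `J (a, b) = (a + b, b)`, is not
linearly conjugate to any finite product of weighted backward shifts on `ℓ_p(𝕜)`. -/
theorem result (𝕜 : Type) [RCLike 𝕜] (p : ℝ) (hp : 1 ≤ p) :
    ∃ J : EuclideanSpace 𝕜 (Fin 2) ≃L[𝕜] EuclideanSpace 𝕜 (Fin 2),
      (∀ v, J v 0 = v 0 + v 1 ∧ J v 1 = v 1) ∧
      ∀ (k : ℕ) (ω : Fin k → ℤ → 𝕜), (∀ i, Admissible (ω i)) →
        ¬ ConjugateToProduct p (shiftOp fun _ => J) ω := by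
  refine ⟨je (1 : 𝕜), fun v => ⟨by rw [je_apply_zero, one_mul], je_apply_one _ _⟩, ?_⟩
  rintro k ω hω ⟨H, hmap, hadd, hsmul, hbij, ⟨C, hC⟩, hH⟩
  have hfact : Fact (1 ≤ ENNReal.ofReal p) := ⟨by
    rw [← ENNReal.ofReal_one]; exact ENNReal.ofReal_le_ofReal hp⟩
  have htop : ENNReal.ofReal p ≠ ⊤ := ENNReal.ofReal_ne_top
  have hD' : ∀ i, ∃ C : ℝ, ∀ n, ‖ω i n‖ ≤ C := fun i => (hω i).1
  choose D hD using hD'
  let V := lp (fun _ : ℤ => EuclideanSpace 𝕜 (Fin 2)) (ENNReal.ofReal p)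
  let W := lp (fun _ : ℤ => 𝕜) (ENNReal.ofReal p)
  let f : V → (Fin k → W) := fun x i => mk hp (H (fun n => x n) i) (hmap _ (inLp_coe hp x) i)
  have hf : ∀ (x : V) i n, f x i n = H (fun n => x n) i n := fun x i n => rfl
  let L : V →ₗ[𝕜] (Fin k → W) :=
    { toFun := f
      map_add' := by
        intro x y
        funext i
        apply lp.ext
        funext n
        exact congrFun (congrFun (hadd _ _ (inLp_coe hp x) (inLp_coe hp y)) i) n
      map_smul' := by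
        intro c x
        funext i
        apply lp.ext
        funext n
        exact congrFun (congrFun (hsmul c _ (inLp_coe hp x)) i) n }
  have hLbij : Function.Bijective L := by
    constructor
    · intro x y hxy
      have hxy' : H (fun n => x n) = H (fun n => y n) := by
        funext i n
        have := congrArg (fun z : Fin k → W => z i n) hxy
        exact this
      obtain ⟨z, -, hz⟩ := hbij (H (fun n => y n)) (hmap _ (inLp_coe hp y))
      have h1 := hz (fun n => x n) ⟨inLp_coe hp x, hxy'⟩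
      have h2 := hz (fun n => y n) ⟨inLp_coe hp y, rfl⟩
      apply lp.ext
      funext n
      exact congrFun (h1.trans h2.symm) n
    · intro y
      obtain ⟨x, ⟨hx, hxy⟩, -⟩ := hbij (fun i n => y i n) (fun i => inLp_coe hp (y i))
      refine ⟨mk hp x hx, ?_⟩
      funext i
      apply lp.ext
      funext n
      exact congrFun (congrFun hxy i) n
  let e : V ≃ₗ[𝕜] (Fin k → W) := LinearEquiv.ofBijective L hLbij
  have he : ∀ x i n, e x i n = H (fun n => x n) i n := fun x i n => rfl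
  have hen : ∀ x i, lpNorm p (H (fun n => x n) i) = ‖e x i‖ := fun x i => lpNorm_coe hp (e x i)
  have hb1' : ∀ x, ‖e x‖ ≤ |C| * ‖x‖ := by
    intro x
    refine (pi_norm_le_iff_of_nonneg (by positivity)).2 fun i => ?_
    have h1 := (hC (fun n => x n) (inLp_coe hp x)).1 i
    rw [hen, lpNorm_coe hp x] at h1
    exact h1.trans (mul_le_mul_of_nonneg_right (le_abs_self _) (norm_nonneg _))
  have hb2' : ∀ y, ‖e.symm y‖ ≤ (|C| * k) * ‖y‖ := by
    intro y
    have h1 := (hC (fun n => e.symm y n) (inLp_coe hp (e.symm y))).2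
    rw [lpNorm_coe hp (e.symm y), Finset.sum_congr rfl (fun i _ => hen (e.symm y) i)] at h1
    rw [LinearEquiv.apply_symm_apply] at h1
    have h3 : ∑ i, ‖y i‖ ≤ k * ‖y‖ := by
      calc ∑ i, ‖y i‖ ≤ ∑ _i : Fin k, ‖y‖ := Finset.sum_le_sum fun i _ => norm_le_pi_norm y i
        _ = k * ‖y‖ := by simp
    have h0 : (0 : ℝ) ≤ ∑ i, ‖y i‖ := Finset.sum_nonneg fun _ _ => norm_nonneg _
    calc ‖e.symm y‖ ≤ C * ∑ i, ‖y i‖ := h1
      _ ≤ |C| * ∑ i, ‖y i‖ := mul_le_mul_of_nonneg_right (le_abs_self _) h0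
      _ ≤ |C| * (k * ‖y‖) := mul_le_mul_of_nonneg_left h3 (abs_nonneg _)
      _ = _ := by ring
  let E : V ≃L[𝕜] (Fin k → W) := e.toContinuousLinearEquivOfBounds |C| (|C| * k) hb1' hb2'
  refine core htop k ω (fun i => wop htop (ω i) (D i) (hD i))
    (fun i => ⟨(hω i).1, (hω i).2, fun x n => rfl⟩) E ?_
  intro x i
  apply lp.ext
  funext n
  exact congrFun (hH (fun n => x n) (inLp_coe hp x) i) n

end Pool.Agent.Results.MP_43e0cc_an.JordanShift
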